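import Pool.Agent.Lib.MP_00f561_co.Main

open Pool.Agent.Lib.MP_00f561_co

/-- Ten blue and ten red circles in Euclidean 3-space, circles of one colour pairwise disjoint,
99 variegated pairs meeting in exactly one point, and the remaining pair disjoint. -/
theorem Pool.Agent.Results.MP_00f561_co.Counterexample.result :
    ∃ B R : Fin 10 → Set (EuclideanSpace ℝ (Fin 3)),
      (∀ i, IsCircle (B i)) ∧ (∀ j, IsCircle (R j)) ∧
      (∀ i i', i ≠ i' → B i ∩ B i' = ∅) ∧ (∀ j j', j ≠ j' → R j ∩ R j' = ∅) ∧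
      (∀ i j, (i, j) ≠ (9, 9) → ∃! p, p ∈ B i ∩ R j) ∧ B 9 ∩ R 9 = ∅ := by
  obtain ⟨B, R, h1, h2, h3, h4, h5, h6⟩ := main
  exact ⟨B, R, h1, h2, fun i j h => (h3 i j h).inter_eq, fun i j h => (h4 i j h).inter_eq, h5,
    h6.inter_eq⟩
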